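import Pool.Agent.K1H73.LS.Tw
import Pool.Agent.K1H73.LS.Pr

/-!
# Primes `p` in the almost twin prime representations of every large even number

`n = p + (n - p)` with `p` PRIME and `p + s`, `n - p`, `n - p + t` (`s, t = ± 2`) without prime factors `≤ n ^ (1 / r)`:
for every large even `n` the asymptotic number of these `p` in every interval of length at least `δ n` and in every
residue class of a fixed squarefree modulus, and the Poisson law for the number of the representations (with `p`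
almost prime) which follow such a prime within `T`.

The law after primes for finite sets of linear forms is the one of `Pool.Agent.R490.LZ` (`primeL`) of the starting
files, for forms which are not translates of each other by small numbers. The forms `x`, `x + s` are; new here is
the reduction to one class modulo a divisor of six, in which all the good `p` lie (for the count, for the windows after
the primes and for the densities), and the application to the sums.
-/

set_option autoImplicit false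

namespace Pool.Agent.Results.MP_c6d112_nt.PrimesLaw

open Finset Filter
open Pool.Agent.K1H73

/-- the number of the residue classes modulo `l` of `0`, `-s`, `n`, `n + t` -/
def rho (n s t : ℤ) (l : ℕ) : ℕ := (({0, -s, n, n + t} : Finset ℤ).image (fun h : ℤ => h % (l : ℤ))).card

/-- the signs fit to `n`: both are `2` or `-2`, and there is no obstruction modulo `3` for the four
numbers `p`, `p + s`, `n - p`, `n - p + t` -/
def Fit (n s t : ℤ) : Prop := (s = 2 ∨ s = -2) ∧ (t = 2 ∨ t = -2) ∧ rho n s t 3 < 3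

/-- the four numbers `p`, `p + s`, `n - p`, `n - p + t` -/
def num (n s t : ℤ) (p : ℕ) (i : Fin 4) : ℤ := ![(p : ℤ), p + s, n - p, n - p + t] i

/-- the sieve product over the primes `l ≤ z` which do not divide `q` -/
noncomputable def V (n s t : ℤ) (q z : ℕ) : ℝ :=
  ∏ l ∈ (Finset.range (z + 1)).filter Nat.Prime, (1 - ((if l ∣ q then 0 else rho n s t l : ℕ) : ℝ) / l)

/-- none of the four numbers has a prime factor `≤ z`, `p = a + q m` -/
def Good (n s t : ℤ) (q a z m : ℕ) : Prop :=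
  ∀ l : ℕ, l.Prime → l ≤ z → ∀ i, ¬ (l : ℤ) ∣ num n s t (a + q * m) i

/-- the same product, every factor divided by `1 - 1 / l` -/
noncomputable def W (n s t : ℤ) (q z : ℕ) : ℝ :=
  ∏ l ∈ (Finset.range (z + 1)).filter Nat.Prime,
    (1 - ((if l ∣ q then 0 else rho n s t l : ℕ) : ℝ) / l) / (1 - 1 / (l : ℝ))

open Classical in
/-- the good `m` in `(u, u + Y]` for which `a + q m` is PRIME -/
noncomputable def P (n s t : ℤ) (q a z u Y : ℕ) : Finset ℕ :=
  (Ioc u (u + Y)).filter (fun m => (a + q * m).Prime ∧ Good n s t q a z m)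

open Classical in
/-- the number of the good `m'` in `(m, m + T]` -/
noncomputable def Next (n s t : ℤ) (q a z T m : ℕ) : ℕ :=
  ((Ioc m (m + T)).filter (fun m' => Good n s t q a z m')).card

theorem fit_exists (n : ℤ) : ∃ s t : ℤ, Fit n s t := by
  have h3 : n % 3 = 0 ∨ n % 3 = 1 ∨ n % 3 = 2 := by omega
  have key : ∀ s t : ℤ, ∀ a b : ℤ, (-s) % 3 = a → (n + t) % 3 = b → rho n s t 3 =
      (({0, a, n % 3, b} : Finset ℤ)).card := by
    intro s t a b h1 h2
    unfold rho
    rw [image_insert, image_insert, image_insert, image_singleton]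
    push_cast
    rw [h1, h2]
  rcases h3 with h | h | h
  · refine ⟨2, -2, Or.inl rfl, Or.inr rfl, ?_⟩
    rw [key 2 (-2) 1 1 (by norm_num) (by omega), h]
    decide
  · refine ⟨2, 2, Or.inl rfl, Or.inl rfl, ?_⟩
    rw [key 2 2 1 0 (by norm_num) (by omega), h]
    decide
  · refine ⟨-2, -2, Or.inr rfl, Or.inr rfl, ?_⟩
    rw [key (-2) (-2) 2 0 (by norm_num) (by omega), h]
    decide

theorem good_iff (n s t : ℤ) (q a z m : ℕ) :
    Good n s t q a z m ↔ Pool.Agent.R490.LZ.Ro (LS.fm q a (LS.Hs n s t)) z m := by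
  rw [LS.fm_ro]
  unfold Good
  constructor
  · intro h l hl hlz
    exact (LS.num_dvd n s t (a + q * m) l).1 (h l hl hlz)
  · intro h l hl hlz
    exact (LS.num_dvd n s t (a + q * m) l).2 (h l hl hlz)

theorem hco_of {n s t : ℤ} {q a : ℕ} (h : ∀ i, IsCoprime (num n s t a i) (q : ℤ)) :
    ∀ p : ℕ, p.Prime → p ∣ q → ∀ h ∈ LS.Hs n s t, ¬ (p : ℤ) ∣ (a : ℤ) - h := by
  intro p hp hpq
  apply (LS.num_dvd n s t a p).1
  intro i hd
  have h1 : (p : ℤ) ∣ (q : ℤ) := by exact_mod_cast hpq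
  have h2 := (h i).isUnit_of_dvd' hd h1
  rw [Int.isUnit_iff_natAbs_eq, Int.natAbs_natCast] at h2
  exact hp.one_lt.ne' h2

theorem V_eq {n s t : ℤ} {q a : ℕ} (h : ∀ i, IsCoprime (num n s t a i) (q : ℤ)) (z : ℕ) :
    Pool.Agent.R490.LZ.De (LS.fm q a (LS.Hs n s t)) z = V n s t q z := by
  rw [LS.fm_De (hco_of h)]
  rfl

theorem V_pos {n s t : ℤ} (he : Even n) (hf : Fit n s t) (q z : ℕ) : 0 < V n s t q z := by
  unfold V
  apply prod_pos
  intro l hl
  have hl' := (mem_filter.1 hl).2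
  have h1 : rho n s t l < l := LS.nu_lt he hf l hl'
  have h0 : (0 : ℝ) < l := by exact_mod_cast hl'.pos
  rw [sub_pos, div_lt_one h0]
  split_ifs
  · exact_mod_cast hl'.pos
  · exact_mod_cast h1

theorem good_eq (n s t : ℤ) (q a z : ℕ) :
    Good n s t q a z = Pool.Agent.R490.LZ.Ro (LS.fm q a (LS.Hs n s t)) z := by
  funext m
  exact propext (good_iff n s t q a z m)

theorem W_eq {n s t : ℤ} {q a : ℕ} (h : ∀ i, IsCoprime (num n s t a i) (q : ℤ)) (z : ℕ) :
    Pool.Agent.R490.LZ.Wr (LS.fm q a (LS.Hs n s t)) z = W n s t q z := by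
  unfold Pool.Agent.R490.LZ.Wr W
  apply Finset.prod_congr rfl
  intro p hp
  have hpp := (mem_filter.1 hp).2
  have h1 := LS.fm_nu (q := q) (a := a) (H := LS.Hs n s t) hpp (hco_of h p hpp)
  rw [h1]
  rfl

theorem P_eq (n s t : ℤ) (q a z u Y : ℕ) :
    Pool.Agent.R490.LZ.Pr q a (LS.fm q a (LS.Hs n s t)) z u Y = P n s t q a z u Y := by
  classical
  unfold Pool.Agent.R490.LZ.Pr P
  rw [← good_eq]
  ext m
  rw [mem_filter, mem_filter, add_comm (q * m) a]

theorem Next_eq (n s t : ℤ) (q a z T m : ℕ) :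
    Pool.Agent.R490.LZ.Nx (LS.fm q a (LS.Hs n s t)) z T m = Next n s t q a z T m := by
  unfold Pool.Agent.R490.LZ.Nx Next
  rw [← good_eq]

/-- **Primes in the almost twin prime representations.** Let `q` be squarefree, `δ > 0`, `0 < ε ≤ 1` and `x0` be
given. (0) Every integer has fitting signs. There is `r0` such that for all `r ≥ r0` and all large even `n`,
`z = n ^ (1 / r)` (integer part), all fitting signs `s`, `t` and all `a ≤ q` such that the four numbers for `p = a`
are prime to `q`, and all intervals `(u, u + Y]` with `Y ≥ δ n`, `a + q (u + Y) ≤ n`: (1) the number of the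
`m` in `(u, u + Y]` for which `p = a + q m` is PRIME and none of `p`, `p + s`, `n - p`, `n - p + t` has a prime factor
`≤ z` is `Y W / log n`, up to the factor `1 + ε`; (2) for all `T` with `T V ≤ x0` the number of the good `m'` in
`(m, m + T]`, `m` running over these numbers, has the Poisson distribution of mean `T V`, up to `ε`. -/
theorem result (q : ℕ) (hq : Squarefree q) (δ x0 ε : ℝ) (hδ : 0 < δ) (hε : 0 < ε) (hε1 : ε ≤ 1) :
    (∀ n : ℤ, ∃ s t : ℤ, Fit n s t) ∧
    ∃ r0 : ℕ, 1 ≤ r0 ∧ ∀ r : ℕ, r0 ≤ r → ∀ᶠ n : ℕ in atTop, Even n → ∀ z : ℕ, z = ⌊(n : ℝ) ^ (1 / (r : ℝ))⌋₊ →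
      ∀ s t : ℤ, Fit n s t → ∀ a : ℕ, a ≤ q → (∀ i, IsCoprime (num n s t a i) (q : ℤ)) →
        0 < V n s t q z ∧ 0 < W n s t q z ∧
        ∀ u Y : ℕ, δ * n ≤ Y → a + q * (u + Y) ≤ n →
          |((P n s t q a z u Y).card : ℝ) * Real.log n - Y * W n s t q z| ≤ ε * (Y * W n s t q z) ∧
          ∀ T : ℕ, T * V n s t q z ≤ x0 → ∀ J : Finset ℕ,
            |(((P n s t q a z u Y).filter (fun m => Next n s t q a z T m ∈ J)).card : ℝ) -
                (P n s t q a z u Y).card *
                  ∑ j ∈ J, Real.exp (-(T * V n s t q z)) * (T * V n s t q z) ^ j / j.factorial| ≤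
              ε * (P n s t q a z u Y).card := by
  refine ⟨fit_exists, ?_⟩
  have hq0 : 1 ≤ q := Nat.one_le_iff_ne_zero.2 hq.ne_zero
  obtain ⟨hws, hwc, hw6, hw1, h6, _⟩ := LS.ww_spec q
  have hsq : Squarefree (q * LS.ww q) := by
    rw [Nat.squarefree_mul hwc.symm]
    exact ⟨hq, hws⟩
  obtain ⟨r0, hr0, h0⟩ := LS.primeC q (LS.ww q) 4 2 hsq (by norm_num) (1 / 2) 1 (min δ 1) (by norm_num) one_pos
    (by positivity) (min_le_right _ _) x0 ε hε hε1
  refine ⟨r0, by omega, ?_⟩
  intro r hr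
  have hb1 : ∀ᶠ n : ℕ in atTop, ((q * 6 + q : ℕ) : ℝ) ≤ (n : ℝ) ^ ((1 : ℝ) / 4) :=
    ((tendsto_rpow_atTop (by norm_num)).comp tendsto_natCast_atTop_atTop).eventually_ge_atTop _
  have hb2 : ∀ᶠ n : ℕ in atTop, (12 : ℝ) * q < (n : ℝ) ^ ((1 : ℝ) / 2) :=
    ((tendsto_rpow_atTop (by norm_num)).comp tendsto_natCast_atTop_atTop).eventually_gt_atTop _
  filter_upwards [h0 r hr, hb1, hb2, eventually_ge_atTop (10 + q)] with n hN hb1 hb2 hn
  intro he z hz s t hf a haq hco
  have heZ : Even (n : ℤ) := by exact_mod_cast he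
  have hft : LS.Ft n s t := hf
  have hn1 : (1 : ℝ) ≤ n := by exact_mod_cast (by omega : 1 ≤ n)
  obtain ⟨c, hc⟩ := LS.twin_one heZ hft q a
  have hgood := LS.twin_good (by omega) heZ hft hq0 (by omega) (by omega) (hco_of hco) hc
  have hcw := hc.lt
  have hnoT : Pool.Agent.R490.LZ.NoT (LS.sb (LS.ww q) c (LS.fm q a (LS.Hs n s t))) ((n : ℝ) ^ (1 / 2 : ℝ)) := by
    apply LS.sb_noT
    intro h hh h' hh' T' hT1 hT2
    have h7 : (6 : ℤ) ∣ (q : ℤ) * LS.ww q := by exact_mod_cast h6
    apply LS.dif hft ((q : ℤ) * LS.ww q * T') (Dvd.dvd.mul_right h7 _) ?_ ?_ h hh h' hh'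
    · have : 0 < q * LS.ww q * T' := Nat.mul_pos (Nat.mul_pos hq0 hw1) hT1
      exact_mod_cast this
    · have h9 : (n : ℝ) = (n : ℝ) ^ (1 / 2 : ℝ) * (n : ℝ) ^ (1 / 2 : ℝ) := by
        rw [← Real.rpow_add (by linarith)]
        norm_num
      have h10 : (0 : ℝ) < (n : ℝ) ^ (1 / 2 : ℝ) := Real.rpow_pos_of_pos (by linarith) _
      have h12 : ((q * LS.ww q * T' : ℕ) : ℝ) ≤ (q : ℝ) * 6 * (n : ℝ) ^ (1 / 2 : ℝ) := by
        push_cast
        have h13 : ((LS.ww q : ℕ) : ℝ) ≤ 6 := by exact_mod_cast hw6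
        apply mul_le_mul _ hT2 (Nat.cast_nonneg _) (by positivity)
        exact mul_le_mul_of_nonneg_left h13 (Nat.cast_nonneg q)
      have h14 : ((q * LS.ww q * T' : ℕ) : ℝ) * 2 ≤ n := by
        have h15 : (12 : ℝ) * q * (n : ℝ) ^ (1 / 2 : ℝ) ≤ (n : ℝ) ^ (1 / 2 : ℝ) * (n : ℝ) ^ (1 / 2 : ℝ) :=
          mul_le_mul_of_nonneg_right hb2.le h10.le
        rw [← h9] at h15
        linarith
      have h15 : q * LS.ww q * T' * 2 ≤ n := by exact_mod_cast h14
      have h16 : ((q * LS.ww q * T' : ℕ) : ℤ) < (n : ℤ) - 4 := by omega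
      push_cast at h16
      exact h16
  have hcard : (LS.fm q a (LS.Hs n s t)).card = 4 := by
    rw [LS.fm_card]
    exact LS.Hs_card (by exact_mod_cast (by omega : 5 ≤ n)) hft
  have hmem : ((q : ℤ), (a : ℤ)) ∈ LS.fm q a (LS.Hs n s t) := by
    unfold LS.fm
    rw [mem_image]
    exact ⟨0, by simp [LS.Hs], by simp⟩
  have hb : ((q * c + a : ℕ) : ℝ) ≤ (n : ℝ) ^ ((1 : ℝ) / 4) := by
    refine le_trans ?_ hb1
    have h1 : q * c ≤ q * 6 := Nat.mul_le_mul_left _ (by omega)
    exact_mod_cast (by omega : q * c + a ≤ q * 6 + q)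
  have h := hN (LS.fm q a (LS.Hs n s t)) a c hcard hmem hb (fun p _ hpq l hl => by
    obtain ⟨h, _, rfl⟩ := mem_image.1 hl
    show (p : ℤ) ∣ (q : ℤ)
    exact_mod_cast hpq) hc hgood hnoT z hz
  rw [W_eq hco, V_eq hco] at h
  refine ⟨V_pos heZ hf q z, h.1, ?_⟩
  intro u Y hY hu
  have huY : u + Y ≤ n := by
    have : u + Y ≤ q * (u + Y) := Nat.le_mul_of_pos_left _ hq0
    omega
  have h2 := h.2 n (by rw [Real.rpow_one]) u Y
    ((mul_le_mul_of_nonneg_right (min_le_left _ _) (Nat.cast_nonneg n)).trans hY) huY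
  rw [P_eq] at h2
  refine ⟨h2.1, ?_⟩
  intro T hT J
  have h3 := h2.2 T hT J
  simp only [Next_eq] at h3
  exact h3

end Pool.Agent.Results.MP_c6d112_nt.PrimesLaw
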