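import Pool.Agent.K1H73.LS.Tw
import Pool.Agent.K1H73.LS.PatC

/-!
# Residue patterns of consecutive almost twin prime representations of every large even number

`S` is the set of the `p` for which none of `p`, `p + s`, `n - p`, `n - p + t` (`s, t = ± 2`) has a prime factor
`≤ n ^ (1 / r)`; it contains the `p` with `n = p + p'` for which `p`, `p + s`, `p' = n - p`, `p' + t` are primes
`> n ^ (1 / r)`. For every prime `l` and every `k`: for all large even `n` and all intervals of length at least `n ^ θ`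
the residue classes modulo `6 l` of `k + 1` consecutive elements of `S` form every admissible pattern asymptotically
equally often.

The theorem on residue patterns for one sieve problem is the one of `Pool.Agent.V11146.MK` (`gen_pat`) of the starting
files, used there for fixed systems of polynomials. New here: the version for systems which depend on `X`, uniformly
(`pat_unif`, `pat_polys`), the reduction to one class modulo a divisor of six, and the application.
-/

set_option autoImplicit false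

namespace Pool.Agent.Results.MP_c6d112_nt.ResiduePatterns

open Finset Filter
open Pool.Agent.K1H73

/-- the number of the residue classes modulo `l` of `0`, `-s`, `n`, `n + t` -/
def rho (n s t : ℤ) (l : ℕ) : ℕ := (({0, -s, n, n + t} : Finset ℤ).image (fun h : ℤ => h % (l : ℤ))).card

/-- the signs fit to `n`: both are `2` or `-2`, and there is no obstruction modulo `3` for the four
numbers `p`, `p + s`, `n - p`, `n - p + t` -/
def Fit (n s t : ℤ) : Prop := (s = 2 ∨ s = -2) ∧ (t = 2 ∨ t = -2) ∧ rho n s t 3 < 3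

/-- the four numbers `p`, `p + s`, `n - p`, `n - p + t` -/
def num (n s t : ℤ) (p : ℕ) (i : Fin 4) : ℤ := ![(p : ℤ), p + s, n - p, n - p + t] i

/-- none of the four numbers has a prime factor `≤ z` -/
def Good (n s t : ℤ) (z p : ℕ) : Prop := ∀ l : ℕ, l.Prime → l ≤ z → ∀ i, ¬ (l : ℤ) ∣ num n s t p i

/-- `p 0 < p 1 < … < p k` are consecutive elements of `S` -/
def Consecutive (S : ℕ → Prop) (k : ℕ) (p : ℕ → ℕ) : Prop :=
  (∀ i ≤ k, S (p i)) ∧ ∀ i < k, p i < p (i + 1) ∧ ∀ m, p i < m → m < p (i + 1) → ¬ S m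

open Classical in
/-- the number of the good `p` in `(u, u + Y]` -/
noncomputable def total (n s t : ℤ) (z u Y : ℕ) : ℕ := ((Ioc u (u + Y)).filter (Good n s t z)).card

open Classical in
/-- the number of the good `g` in `(u, u + Y]` such that `g` and the `k` next good integers are congruent to
`a 0, …, a k` modulo `M` -/
noncomputable def count (n s t : ℤ) (z k M : ℕ) (a : ℕ → ℕ) (u Y : ℕ) : ℕ :=
  ((Ioc u (u + Y)).filter (fun g => ∃ p : ℕ → ℕ, p 0 = g ∧ Consecutive (Good n s t z) k p ∧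
    ∀ i ≤ k, p i % M = a i)).card

open Classical in
/-- the residue classes modulo `M` for which the four numbers are prime to `M` -/
noncomputable def Cl (n s t : ℤ) (M : ℕ) : Finset ℕ :=
  (range M).filter (fun b => ∀ i, IsCoprime (num n s t b i) (M : ℤ))

theorem fit_exists (n : ℤ) : ∃ s t : ℤ, Fit n s t := by
  have h3 : n % 3 = 0 ∨ n % 3 = 1 ∨ n % 3 = 2 := by omega
  have key : ∀ s t : ℤ, ∀ a b : ℤ, (-s) % 3 = a → (n + t) % 3 = b → rho n s t 3 =
      (({0, a, n % 3, b} : Finset ℤ)).card := by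
    intro s t a b h1 h2
    unfold rho
    rw [image_insert, image_insert, image_insert, image_singleton]
    push_cast
    rw [h1, h2]
  rcases h3 with h | h | h
  · refine ⟨2, -2, Or.inl rfl, Or.inr rfl, ?_⟩
    rw [key 2 (-2) 1 1 (by norm_num) (by omega), h]
    decide
  · refine ⟨2, 2, Or.inl rfl, Or.inl rfl, ?_⟩
    rw [key 2 2 1 0 (by norm_num) (by omega), h]
    decide
  · refine ⟨-2, -2, Or.inr rfl, Or.inr rfl, ?_⟩
    rw [key (-2) (-2) 2 0 (by norm_num) (by omega), h]
    decide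

/-- few prime factors -/
theorem few {n z r : ℕ} (hr : 1 ≤ r) (hn : 2 ≤ n) (hz : z = ⌊(n : ℝ) ^ (1 / (r : ℝ))⌋₊) (hz2 : 2 ≤ z) {x : ℕ}
    (hx0 : x ≠ 0) (hx : x ≤ n + 2) (h : ∀ l : ℕ, l.Prime → l ≤ z → ¬ l ∣ x) : x.primeFactorsList.length ≤ r := by
  by_contra hcon
  rw [not_le] at hcon
  have h1 : ∀ l ∈ x.primeFactorsList, z + 1 ≤ l := by
    intro l hl
    by_contra h2
    exact h l (Nat.prime_of_mem_primeFactorsList hl) (by omega) (Nat.dvd_of_mem_primeFactorsList hl)
  have h2 : (z + 1) ^ x.primeFactorsList.length ≤ x := by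
    have h3 : (z + 1) ^ x.primeFactorsList.length ≤ x.primeFactorsList.prod :=
      List.pow_card_le_prod _ _ h1
    rwa [Nat.prod_primeFactorsList hx0] at h3
  have h4 : (z + 1) ^ (r + 1) ≤ (z + 1) ^ x.primeFactorsList.length := Nat.pow_le_pow_right (by omega) hcon
  have h5 : (n : ℝ) < ((z + 1 : ℕ) : ℝ) ^ r := by
    have h6 : (n : ℝ) ^ (1 / (r : ℝ)) < ((z + 1 : ℕ) : ℝ) := by
      rw [hz]
      push_cast
      exact Nat.lt_floor_add_one _
    have h7 : ((n : ℝ) ^ (1 / (r : ℝ))) ^ r < ((z + 1 : ℕ) : ℝ) ^ r :=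
      pow_lt_pow_left₀ h6 (by positivity) (by omega)
    rwa [← Real.rpow_natCast, ← Real.rpow_mul (Nat.cast_nonneg n), one_div,
      inv_mul_cancel₀ (by positivity), Real.rpow_one] at h7
  have h6 : n < (z + 1) ^ r := by exact_mod_cast h5
  have h7 : (z + 1) ^ (r + 1) = (z + 1) ^ r * (z + 1) := pow_succ _ _
  nlinarith

theorem good_eq (n s t : ℤ) (z : ℕ) :
    Good n s t z = Pool.Agent.R490.LZ.Ro (LS.fm 1 0 (LS.Hs n s t)) z := by
  funext m
  apply propext
  rw [LS.fm_ro]
  unfold Good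
  have e : 0 + 1 * m = m := by ring
  rw [e]
  constructor
  · intro h l hl hlz
    exact (LS.num_dvd n s t m l).1 (h l hl hlz)
  · intro h l hl hlz
    exact (LS.num_dvd n s t m l).2 (h l hl hlz)

theorem Cl_eq (n s t : ℤ) {M : ℕ} (hM : 0 < M) : LS.Cw (LS.fm 1 0 (LS.Hs n s t)) M = Cl n s t M := by
  classical
  unfold LS.Cw Cl
  apply Finset.filter_congr
  intro b _
  have key : ∀ p : ℕ, (∀ f ∈ LS.fm 1 0 (LS.Hs n s t), ¬ (p : ℤ) ∣ f.1 * b + f.2) ↔
      ∀ i, ¬ (p : ℤ) ∣ num n s t b i := by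
    intro p
    rw [show (∀ i, ¬ (p : ℤ) ∣ num n s t b i) ↔ ∀ h ∈ LS.Hs n s t, ¬ (p : ℤ) ∣ (b : ℤ) - h from
      LS.num_dvd n s t b p]
    have e : ∀ h : ℤ, ((1 : ℕ) : ℤ) * (b : ℤ) + (((0 : ℕ) : ℤ) - h) = (b : ℤ) - h := by
      intro h
      push_cast
      ring
    unfold LS.fm
    constructor
    · intro h0 h hh hd
      apply h0 _ (mem_image_of_mem _ hh)
      show (p : ℤ) ∣ ((1 : ℕ) : ℤ) * (b : ℤ) + (((0 : ℕ) : ℤ) - h)
      rw [e]
      exact hd
    · intro h0 f hf hd
      obtain ⟨h, hh, rfl⟩ := mem_image.1 hf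
      apply h0 h hh
      rw [← e]
      exact hd
  constructor
  · intro h i
    rw [Int.isCoprime_iff_gcd_eq_one]
    by_contra hcon
    obtain ⟨p, hp, hd⟩ := Nat.exists_prime_and_dvd hcon
    have h1 : (p : ℤ) ∣ num n s t b i := (Int.natCast_dvd_natCast.2 hd).trans (Int.gcd_dvd_left ..)
    have h2 : (p : ℤ) ∣ (M : ℤ) := (Int.natCast_dvd_natCast.2 hd).trans (Int.gcd_dvd_right ..)
    exact (key p).1 (h p hp (by exact_mod_cast h2)) i h1
  · intro h p hp hpM
    rw [key]
    intro i hd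
    have h1 : (p : ℤ) ∣ (M : ℤ) := by exact_mod_cast hpM
    have h2 := (h i).isUnit_of_dvd' hd h1
    rw [Int.isUnit_iff_natAbs_eq, Int.natAbs_natCast] at h2
    exact hp.one_lt.ne' h2

/-- the number of the admissible classes -/
theorem Cl_card {n s t : ℤ} (he : Even n) (hf : Fit n s t) {l : ℕ} (hl : l.Prime) :
    (Cl n s t (6 * l)).card + (if l ≤ 3 then 0 else rho n s t l) = l := by
  classical
  have hft : LS.Ft n s t := hf
  obtain ⟨c, hc⟩ := LS.twin_one he hft 1 0
  have hw : LS.ww 1 = 6 := by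
    unfold LS.ww
    norm_num
  rw [hw] at hc
  rw [← Cl_eq n s t (Nat.mul_pos (by norm_num) hl.pos), LS.Cw_card hc rfl hl]
  have h1 := Pool.Agent.V11146.MK.card_cls (Pool.Agent.W123.RU.Poly.Q
    (Pool.Agent.R490.LZ.sys (LS.sb 6 c (LS.fm 1 0 (LS.Hs n s t))) _ rfl)) l
  have h2 : Pool.Agent.H373R2.T7.nuB (Pool.Agent.W123.RU.Poly.Q
      (Pool.Agent.R490.LZ.sys (LS.sb 6 c (LS.fm 1 0 (LS.Hs n s t))) _ rfl)) l =
      if l ≤ 3 then 0 else rho n s t l := by
    have e1 : ∀ x : ℕ, Pool.Agent.W123.RU.Poly.Q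
        (Pool.Agent.R490.LZ.sys (LS.sb 6 c (LS.fm 1 0 (LS.Hs n s t))) _ rfl) l x ↔
        (l : ℤ) ∣ RDW.GH (LS.Hs n s t) (c + 6 * x) := by
      intro x
      rw [LS.Q_sb rfl, LS.ex_iff l (6 * x + c) hl]
      have : 0 + 1 * (6 * x + c) = c + 6 * x := by ring
      rw [this]
    have e2 : Pool.Agent.H373R2.T7.nuB (Pool.Agent.W123.RU.Poly.Q
        (Pool.Agent.R490.LZ.sys (LS.sb 6 c (LS.fm 1 0 (LS.Hs n s t))) _ rfl)) l =
        RDW.om (fun x => RDW.GH (LS.Hs n s t) (c + 6 * x)) l := by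
      unfold Pool.Agent.H373R2.T7.nuB RDW.om
      congr 1
      ext x
      rw [mem_filter, mem_filter, e1]
    rw [e2]
    have hPF := RDW.PF_GH (LS.Hs n s t) le_rfl
    have h3 : l ≤ 3 → l = 2 ∨ l = 3 := by
      intro h
      have := hl.two_le
      omega
    split_ifs with h
    · apply RDW.om_affine' hPF
      · rcases h3 h with rfl | rfl <;> norm_num
      · intro hd
        rw [RDW.dvd_GH _ hl] at hd
        obtain ⟨h', hh', hd⟩ := hd
        have hl6 : l ∣ 6 := by rcases h3 h with rfl | rfl <;> norm_num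
        apply hc.ok l hl hl6 ((1 : ℤ), (0 : ℤ) - h')
        · unfold LS.fm
          rw [mem_image]
          exact ⟨h', hh', by simp⟩
        · show (l : ℤ) ∣ (1 : ℤ) * (c : ℤ) + ((0 : ℤ) - h')
          have : (1 : ℤ) * (c : ℤ) + ((0 : ℤ) - h') = (c : ℤ) - h' := by ring
          rw [this]
          exact hd
    · rw [RDW.om_affine hPF c hl, RDW.om_GH _ hl]
      · rfl
      · intro hd
        have : l ≤ 6 := Nat.le_of_dvd (by norm_num) hd
        interval_cases l
        · exact absurd hl (by norm_num)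
        · exact absurd hd (by norm_num)
        · exact absurd hl (by norm_num)
  omega

/-- **Residue patterns of consecutive almost twin prime representations.** Let `l` be a prime number, `k` any
integer and `θ, ε > 0`. (0) Every integer has fitting signs. There is `r0` such that for all `r ≥ r0` and all large
even `n`, `z = n ^ (1 / r)` (integer part), and all fitting signs `s`, `t`: (1) for a good `p ≤ n` the four numbers have
at most `r` prime factors, and `p` is good if they are primes larger than `z` up to the sign; (2) there are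
`l - rho(l)` admissible classes modulo `6 l` (`l` classes if `l ≤ 3`); (3) for all intervals `(u, u + Y]` with
`Y ≥ n ^ θ`, `u + Y ≤ n`, each of the patterns of residue classes modulo `6 l` of `k + 1` consecutive good integers
which consist of admissible classes occurs with the same frequency, up to `ε`. -/
theorem result (l : ℕ) (hl : l.Prime) (k : ℕ) (θ ε : ℝ) (hθ : 0 < θ) (hε : 0 < ε) :
    (∀ n : ℤ, ∃ s t : ℤ, Fit n s t) ∧
    ∃ r0 : ℕ, 1 ≤ r0 ∧ ∀ r : ℕ, r0 ≤ r → ∀ᶠ n : ℕ in atTop, Even n → ∀ z : ℕ, z = ⌊(n : ℝ) ^ (1 / (r : ℝ))⌋₊ →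
      ∀ s t : ℤ, Fit n s t →
        (∀ p : ℕ, p ≤ n →
          (Good n s t z p → ∀ i, (num n s t p i).natAbs.primeFactorsList.length ≤ r) ∧
          ((∀ i, (num n s t p i).natAbs.Prime ∧ z < (num n s t p i).natAbs) → Good n s t z p)) ∧
        (Cl n s t (6 * l)).card + (if l ≤ 3 then 0 else rho n s t l) = l ∧
        ∀ u Y : ℕ, (n : ℝ) ^ θ ≤ Y → u + Y ≤ n →
          0 < total n s t z u Y ∧ ∀ a : ℕ → ℕ, (∀ i ≤ k, a i ∈ Cl n s t (6 * l)) →
            |(count n s t z k (6 * l) a u Y : ℝ) - total n s t z u Y / ((Cl n s t (6 * l)).card : ℝ) ^ (k + 1)| ≤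
              ε * total n s t z u Y := by
  classical
  refine ⟨fit_exists, ?_⟩
  obtain ⟨r0, h0⟩ := LS.patC 4 2 6 l k (by norm_num) hl (1 / 2) θ (by norm_num) hθ ε hε
  refine ⟨max r0 1, le_max_right _ _, ?_⟩
  intro r hr
  have hr1 : 1 ≤ r := (le_max_right _ _).trans hr
  have hb1 : ∀ᶠ n : ℕ in atTop, (12 : ℝ) < (n : ℝ) ^ (1 / 2 : ℝ) :=
    ((tendsto_rpow_atTop (by norm_num)).comp tendsto_natCast_atTop_atTop).eventually_gt_atTop _
  have hb2 : ∀ᶠ n : ℕ in atTop, (2 : ℝ) ≤ (n : ℝ) ^ (1 / (r : ℝ)) :=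
    ((tendsto_rpow_atTop (by positivity)).comp tendsto_natCast_atTop_atTop).eventually_ge_atTop _
  filter_upwards [h0 r ((le_max_left _ _).trans hr), hb1, hb2, eventually_ge_atTop 10] with n hX hX1 hX2 hn
  intro he z hz s t hf
  have heZ : Even (n : ℤ) := by exact_mod_cast he
  have hz2 : 2 ≤ z := by
    rw [hz]
    exact Nat.le_floor (by exact_mod_cast hX2)
  have hft : LS.Ft n s t := hf
  refine ⟨?_, Cl_card heZ hf hl, ?_⟩
  · intro p hm
    constructor
    · intro hg i
      have hp : ((p : ℕ) : ℤ) ≤ n := by exact_mod_cast hm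
      have hp0 : (0 : ℤ) ≤ ((p : ℕ) : ℤ) := Nat.cast_nonneg _
      have hx : (num n s t p i).natAbs ≤ n + 2 := by
        obtain ⟨hs, ht, _⟩ := hf
        obtain ⟨P, hP⟩ : ∃ P : ℤ, P = (p : ℤ) := ⟨_, rfl⟩
        have e : num n s t p i = ![P, P + s, (n : ℤ) - P, (n : ℤ) - P + t] i := by
          rw [hP]
          rfl
        rw [e]
        rw [← hP] at hp hp0
        fin_cases i
        · show P.natAbs ≤ n + 2
          omega
        · show (P + s).natAbs ≤ n + 2
          rcases hs with hs | hs <;> omega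
        · show ((n : ℤ) - P).natAbs ≤ n + 2
          omega
        · show ((n : ℤ) - P + t).natAbs ≤ n + 2
          rcases ht with ht | ht <;> omega
      by_cases hx0 : (num n s t p i).natAbs = 0
      · rw [hx0]
        simp
      · apply few hr1 (by omega) hz hz2 hx0 hx
        intro q hq hqz hd
        exact hg q hq hqz i (Int.natCast_dvd.2 hd)
    · intro h q hq hqz i hd
      obtain ⟨h1, h2⟩ := h i
      have h3 := (Nat.prime_dvd_prime_iff_eq hq h1).1 (Int.natCast_dvd.1 hd)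
      omega
  · intro u Y hY hu
    obtain ⟨c, hc⟩ := LS.twin_one heZ hft 1 0
    have hw : LS.ww 1 = 6 := by
      unfold LS.ww
      norm_num
    have hco : ∀ p : ℕ, p.Prime → p ∣ 1 → ∀ h ∈ LS.Hs n s t, ¬ (p : ℤ) ∣ ((0 : ℕ) : ℤ) - h :=
      fun p hp hp1 => absurd (Nat.dvd_one.1 hp1) hp.one_lt.ne'
    have hgood := LS.twin_good (by omega) heZ hft le_rfl (by omega) (by omega) hco hc
    have hn1 : (1 : ℝ) ≤ n := by exact_mod_cast (by omega : 1 ≤ n)
    rw [hw] at hc hgood
    have hnoT : Pool.Agent.R490.LZ.NoT (LS.sb 6 c (LS.fm 1 0 (LS.Hs n s t))) ((n : ℝ) ^ (1 / 2 : ℝ)) := by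
      apply LS.sb_noT
      intro h hh h' hh' T' hT1 hT2
      apply LS.dif hft (((1 : ℕ) : ℤ) * ((6 : ℕ) : ℤ) * T') ?_ ?_ ?_ h hh h' hh'
      · push_cast
        exact Dvd.dvd.mul_right (by norm_num) _
      · have : 0 < 1 * 6 * T' := by omega
        exact_mod_cast this
      · have h9 : (n : ℝ) = (n : ℝ) ^ (1 / 2 : ℝ) * (n : ℝ) ^ (1 / 2 : ℝ) := by
          rw [← Real.rpow_add (by linarith)]
          norm_num
        have h10 : (0 : ℝ) < (n : ℝ) ^ (1 / 2 : ℝ) := Real.rpow_pos_of_pos (by linarith) _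
        have h14 : ((6 * T' : ℕ) : ℝ) * 2 ≤ n := by
          push_cast
          have h15 : (12 : ℝ) * (n : ℝ) ^ (1 / 2 : ℝ) ≤ (n : ℝ) ^ (1 / 2 : ℝ) * (n : ℝ) ^ (1 / 2 : ℝ) :=
            mul_le_mul_of_nonneg_right hX1.le h10.le
          rw [← h9] at h15
          linarith
        have h15 : 6 * T' * 2 ≤ n := by exact_mod_cast h14
        have h16 : ((1 * 6 * T' : ℕ) : ℤ) < (n : ℤ) - 4 := by omega
        push_cast at h16 ⊢
        exact h16
    have hcard : (LS.fm 1 0 (LS.Hs n s t)).card = 4 := by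
      rw [LS.fm_card]
      exact LS.Hs_card (by exact_mod_cast (by omega : 5 ≤ n)) hft
    have h := hX (LS.fm 1 0 (LS.Hs n s t)) 6 c hcard le_rfl hc hgood hnoT z hz u Y hY
    rw [Cl_eq n s t (Nat.mul_pos (by norm_num) hl.pos), ← good_eq] at h
    exact h

end Pool.Agent.Results.MP_c6d112_nt.ResiduePatterns
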