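import Pool.Agent.K1H73.RDW.Tup

/-!
# Sums of two (almost) twin primes, the first one with restricted digits and in a short interval

For every large even `n`, every base `b` and every interval `(B, B + L]` with `n ≤ L ^ E` inside `(5, n - 6)`:
the `p` of the interval whose last `K = log_b (L / 3)` (integer part) digits belong to arbitrary sets `A i`, with the
product of the `|A i|` at least `exp (- c K) b ^ K`, and for which `p, p + s, n - p, n - p + t` (`s, t = ± 2`) are
products of at most `r` primes `q`, all with `q ^ r > b ^ K`, have at least the expected order of magnitude, and those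
for which `p` and `n - p` are twin primes at most the expected order of magnitude.

The sieve for integers with restricted digits is the one of `Pool.Agent.Y816.PD` of the starting files (`uni_fun`,
unused there for this problem); new here: the form for windows and all polynomial functions, and the application.
-/

set_option autoImplicit false

namespace Pool.Agent.Results.MP_c6d112_nt.RestrictedDigits

open Finset Filter
open Pool.Agent.K1H73.RDW

/-- a prime `p` for which `p + 2` or `p - 2` is prime -/
def Twin (p : ℕ) : Prop := p.Prime ∧ ((p + 2).Prime ∨ (p - 2).Prime)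

/-- the number of the residue classes modulo `q` of `0`, `-s`, `n`, `n + t` -/
def rho (n s t : ℤ) (q : ℕ) : ℕ := (({0, -s, n, n + t} : Finset ℤ).image (fun h : ℤ => h % (q : ℤ))).card

/-- the signs fit to `n`: both are `2` or `-2`, and there is no obstruction modulo `3` for the four
numbers `p`, `p + s`, `n - p`, `n - p + t` -/
def Fit (n s t : ℤ) : Prop := (s = 2 ∨ s = -2) ∧ (t = 2 ∨ t = -2) ∧ rho n s t 3 < 3

/-- the sieve product over the primes `q ≤ n` -/
noncomputable def V (n : ℕ) (s t : ℤ) : ℝ := ∏ q ∈ (Icc 1 n).filter Nat.Prime, (1 - (rho n s t q : ℝ) / q)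

/-- the four numbers `p`, `p + s`, `n - p`, `n - p + t` -/
def num (n s t : ℤ) (p : ℕ) (i : Fin 4) : ℤ := ![(p : ℤ), p + s, n - p, n - p + t] i

/-- the number of the elements of `S` whose `i`-th digit in base `b` belongs to `A i` for all `i < K` -/
noncomputable def count (b K : ℕ) (A : ℕ → Finset ℕ) (S : Set ℕ) : ℕ :=
  {m : ℕ | m ∈ S ∧ ∀ i < K, m / b ^ i % b ∈ A i}.ncard

/-- the `p` in `(B, B + L]` for which the four numbers are larger than `1` and products of at most `r` primes,
all of them with `z < q ^ r` -/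
def P (n : ℕ) (s t : ℤ) (B L r z : ℕ) : Set ℕ := {p | (B < p ∧ p ≤ B + L) ∧ ∀ i, 1 < num n s t p i ∧
  (num n s t p i).natAbs.primeFactorsList.length ≤ r ∧ ∀ q : ℕ, q.Prime → (q : ℤ) ∣ num n s t p i → z < q ^ r}

/-- the `p` in `(B, B + L]` for which `p` and `n - p` are twin primes -/
def T (n B L : ℕ) : Set ℕ := {p | (B < p ∧ p ≤ B + L) ∧ Twin p ∧ Twin (n - p)}

/-- the shifts -/
def Hs (n s t : ℤ) : Finset ℤ := {0, -s, n, n + t}

/-- the `p` in `(B, B + L]` for which the four numbers are primes -/
def TT (n : ℕ) (s t : ℤ) (B L : ℕ) : Set ℕ := {p | (B < p ∧ p ≤ B + L) ∧ ∀ i, (num n s t p i).natAbs.Prime}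

theorem fit_exists (n : ℤ) : ∃ s t : ℤ, Fit n s t := by
  have h3 : n % 3 = 0 ∨ n % 3 = 1 ∨ n % 3 = 2 := by omega
  have key : ∀ s t : ℤ, ∀ a b : ℤ, (-s) % 3 = a → (n + t) % 3 = b → rho n s t 3 =
      (({0, a, n % 3, b} : Finset ℤ)).card := by
    intro s t a b h1 h2
    unfold rho
    rw [image_insert, image_insert, image_insert, image_singleton]
    push_cast
    rw [h1, h2]
  rcases h3 with h | h | h
  · refine ⟨2, -2, Or.inl rfl, Or.inr rfl, ?_⟩
    rw [key 2 (-2) 1 1 (by norm_num) (by omega), h]
    decide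
  · refine ⟨2, 2, Or.inl rfl, Or.inl rfl, ?_⟩
    rw [key 2 2 1 0 (by norm_num) (by omega), h]
    decide
  · refine ⟨-2, -2, Or.inr rfl, Or.inr rfl, ?_⟩
    rw [key (-2) (-2) 2 0 (by norm_num) (by omega), h]
    decide

theorem card_Hs (n s t : ℤ) : (Hs n s t).card ≤ 4 := by
  unfold Hs
  exact card_le_four

theorem nu_Hs (n s t : ℤ) (q : ℕ) : nu (Hs n s t) q = rho n s t q := rfl

theorem nf {n : ℕ} {s t : ℤ} (he : Even n) (hf : Fit n s t) : NF (GH (Hs n s t)) := by
  obtain ⟨h1, h2, h3⟩ := hf
  apply NF_GH
  intro p hp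
  rcases Nat.lt_or_ge p 4 with h4 | h4
  · interval_cases p
    · exact absurd hp (by norm_num)
    · exact absurd hp (by norm_num)
    · have h5 : (Hs n s t).image (fun h : ℤ => h % ((2 : ℕ) : ℤ)) ⊆ {0} := by
        intro x hx
        rw [mem_image] at hx
        obtain ⟨h, hh, rfl⟩ := hx
        unfold Hs at hh
        simp only [mem_insert, mem_singleton] at hh
        rw [mem_singleton]
        obtain ⟨u, hu⟩ := he
        push_cast
        rcases h1 with rfl | rfl <;> rcases h2 with rfl | rfl <;> rcases hh with rfl | rfl | rfl | rfl <;> omega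
      exact lt_of_le_of_lt (card_le_card h5) (by simp)
    · exact h3
  · have h5 : nu (Hs n s t) p ≤ 4 := card_image_le.trans (card_Hs n s t)
    rcases Nat.lt_or_ge 4 p with h6 | h6
    · omega
    · have : p = 4 := by omega
      subst this
      exact absurd hp (by norm_num)

theorem V_eq (n : ℕ) (s t : ℤ) : V n s t = Pool.Agent.Y816.PD.WG (GH (Hs n s t)) n := by
  rw [WG_GH]
  rfl

theorem rho_le (n s t : ℤ) {q : ℕ} (hq : 0 < q) : rho n s t q ≤ q := by
  unfold rho
  have hq0 : (0 : ℤ) < q := by exact_mod_cast hq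
  have h1 : (({0, -s, n, n + t} : Finset ℤ).image (fun h : ℤ => h % (q : ℤ))) ⊆ Ico (0 : ℤ) q := by
    intro x hx
    rw [mem_image] at hx
    obtain ⟨h, _, rfl⟩ := hx
    rw [mem_Ico]
    exact ⟨Int.emod_nonneg _ hq0.ne', Int.emod_lt_of_pos _ hq0⟩
  have := card_le_card h1
  rw [Int.card_Ico] at this
  simpa using this

theorem V_nonneg (n : ℕ) (s t : ℤ) : 0 ≤ V n s t := by
  unfold V
  apply prod_nonneg
  intro q hq
  have hq' := (mem_filter.1 hq).2
  have hq0 : (0 : ℝ) < q := by exact_mod_cast hq'.pos
  rw [sub_nonneg, div_le_one hq0]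
  exact_mod_cast rho_le n s t hq'.pos

/-- the factors -/
theorem num_dvd (n s t : ℤ) (p : ℕ) (i : Fin 4) : num n s t p i ∣ GH (Hs n s t) p ∧
    ∃ h ∈ Hs n s t, num n s t p i = p - h ∨ num n s t p i = -(p - h) := by
  have key : ∀ h ∈ Hs n s t, ((p : ℤ) - h) ∣ GH (Hs n s t) p := fun h hh => dvd_prod_of_mem _ hh
  have m0 : (0 : ℤ) ∈ Hs n s t := by simp [Hs]
  have m1 : -s ∈ Hs n s t := by simp [Hs]
  have m2 : n ∈ Hs n s t := by simp [Hs]
  have m3 : n + t ∈ Hs n s t := by simp [Hs]
  fin_cases i
  · refine ⟨?_, 0, m0, Or.inl ?_⟩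
    · have := key 0 m0
      rw [sub_zero] at this
      exact this
    · show (p : ℤ) = p - 0
      ring
  · refine ⟨?_, -s, m1, Or.inl ?_⟩
    · have := key (-s) m1
      rw [sub_neg_eq_add] at this
      exact this
    · show (p : ℤ) + s = p - (-s)
      ring
  · refine ⟨?_, n, m2, Or.inr ?_⟩
    · have := key n m2
      rw [← neg_dvd, neg_sub] at this
      exact this
    · show n - (p : ℤ) = -(p - n)
      ring
  · refine ⟨?_, n + t, m3, Or.inr ?_⟩
    · have := key (n + t) m3
      rw [← neg_dvd, neg_sub] at this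
      show n - (p : ℤ) + t ∣ _
      have e : n - (p : ℤ) + t = n + t - p := by ring
      rw [e]
      exact this
    · show n - (p : ℤ) + t = -(p - (n + t))
      ring

/-- a prime factor of the product divides one of the four numbers -/
theorem dvd_num (n s t : ℤ) (p : ℕ) {q : ℕ} (hq : q.Prime) (h : (q : ℤ) ∣ GH (Hs n s t) p) :
    ∃ i, (q : ℤ) ∣ num n s t p i := by
  rw [dvd_GH _ hq] at h
  obtain ⟨h, hh, hd⟩ := h
  unfold Hs at hh
  simp only [mem_insert, mem_singleton] at hh
  rcases hh with rfl | rfl | rfl | rfl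
  · refine ⟨0, ?_⟩
    show (q : ℤ) ∣ (p : ℤ)
    rwa [sub_zero] at hd
  · refine ⟨1, ?_⟩
    show (q : ℤ) ∣ (p : ℤ) + s
    rwa [sub_neg_eq_add] at hd
  · refine ⟨2, ?_⟩
    show (q : ℤ) ∣ h - (p : ℤ)
    rwa [← dvd_neg, neg_sub] at hd
  · refine ⟨3, ?_⟩
    show (q : ℤ) ∣ n - (p : ℤ) + t
    rw [← dvd_neg, neg_sub] at hd
    have e : n - (p : ℤ) + t = n + t - p := by ring
    rwa [e]

theorem GH_natAbs (n s t : ℤ) (p : ℕ) {N : ℕ} (h : ∀ h ∈ Hs n s t, ((p : ℤ) - h).natAbs ≤ N) (hN : 1 ≤ N) :
    (GH (Hs n s t) p).natAbs ≤ N ^ 4 := by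
  unfold GH
  rw [← Int.natAbsHom_apply, map_prod]
  calc ∏ x ∈ Hs n s t, Int.natAbsHom ((p : ℤ) - x) ≤ ∏ x ∈ Hs n s t, N := prod_le_prod' fun x hx => h x hx
    _ = N ^ (Hs n s t).card := prod_const _
    _ ≤ N ^ 4 := Nat.pow_le_pow_right hN (card_Hs n s t)

/-- **Sums of two almost twin primes with restricted digits in short intervals.** -/
theorem result (E : ℕ) :
    (∀ n : ℤ, ∃ s t : ℤ, Fit n s t) ∧
    ∃ c : ℝ, 0 < c ∧ ∃ r₀ : ℕ, 2 ≤ r₀ ∧ ∀ r : ℕ, r₀ ≤ r → ∀ b : ℕ, 2 ≤ b → ∃ κ C : ℝ, 0 < κ ∧ 0 < C ∧
      ∀ᶠ n : ℕ in atTop, Even n →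
        (∀ s t : ℤ, Fit n s t → c / Real.log n ^ 4 ≤ V n s t ∧
          ∃ d < b, ∀ i, IsCoprime (num n s t d i) (b : ℤ)) ∧
        ∀ B L : ℕ, 5 ≤ B → B + L + 6 ≤ n → n ≤ L ^ E → ∀ K : ℕ, K = Nat.log b (L / 3) →
          ∀ A : ℕ → Finset ℕ, (∀ i < K, A i ⊆ range b) →
            (b : ℝ) ^ K ≤ Real.exp (c * K) * ∏ i ∈ range K, ((A i).card : ℝ) →
          (∀ s t : ℤ, Fit n s t → (∃ d ∈ A 0, ∀ i, IsCoprime (num n s t d i) (b : ℤ)) →
            κ * (∏ i ∈ range K, ((A i).card : ℝ)) * V n s t ≤ count b K A (P n s t B L r (b ^ K))) ∧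
          (count b K A (T n B L) : ℝ) ≤
            C * (∏ i ∈ range K, ((A i).card : ℝ)) * (V n 2 2 + V n 2 (-2) + V n (-2) 2 + V n (-2) (-2)) := by
  refine ⟨fit_exists, ?_⟩
  obtain ⟨c, hc, r₀, hr₀, h⟩ := main 4 (8 * E) (by norm_num)
  obtain ⟨c1, hc1, hlow⟩ := WG_low 4
  obtain ⟨c2, hc2, hcomp⟩ := WG_comp 4
  refine ⟨min c c1, lt_min hc hc1, r₀, hr₀, fun r hr b hb => ?_⟩
  have h2r : 2 ≤ r := hr₀.trans hr
  obtain ⟨κ, C, hκ, hC, h1⟩ := h r hr b hb
  refine ⟨κ, C * ((4 * (E : ℝ)) ^ 4 / c2) + 1, hκ, by positivity, ?_⟩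
  obtain ⟨L₀, hL₀⟩ := eventually_atTop.1 h1
  filter_upwards [eventually_ge_atTop ((L₀ + 2) ^ E + 8)] with n hn he
  have hcop : ∀ s t : ℤ, ∀ d : ℕ, (∀ i, IsCoprime (num n s t d i) (b : ℤ)) ↔ (GH (Hs n s t) d).natAbs.Coprime b := by
    intro s t d
    rw [cop_iff]
    constructor
    · intro h3
      apply IsCoprime.prod_left
      intro x hx
      unfold Hs at hx
      simp only [mem_insert, mem_singleton] at hx
      have h30 : IsCoprime (d : ℤ) (b : ℤ) := h3 0
      have h31 : IsCoprime ((d : ℤ) + s) (b : ℤ) := h3 1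
      have h32 : IsCoprime ((n : ℤ) - d) (b : ℤ) := h3 2
      have h33 : IsCoprime ((n : ℤ) - d + t) (b : ℤ) := h3 3
      rcases hx with rfl | rfl | rfl | rfl
      · rwa [sub_zero]
      · rwa [sub_neg_eq_add]
      · rw [← neg_sub]
        exact h32.neg_left
      · have e : (d : ℤ) - (n + t) = -(n - d + t) := by ring
        rw [e]
        exact h33.neg_left
    · intro h3 i
      exact h3.of_isCoprime_of_dvd_left (num_dvd n s t d i).1
  refine ⟨fun s t hf => ⟨?_, ?_⟩, ?_⟩
  · rw [V_eq]
    refine le_trans ?_ (hlow n (by omega) _ (PF_GH _ (card_Hs n s t)) (nf he hf))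
    have : 0 ≤ Real.log n ^ 4 := by positivity
    exact div_le_div_of_nonneg_right (min_le_right _ _) this
  · obtain ⟨d, hd, hd2⟩ := exists_digit (PF_GH _ (card_Hs n s t)) (nf he hf) (show 0 < b by omega)
    exact ⟨d, hd, (hcop s t d).2 hd2⟩
  · intro B L hB hBL hnL K hK A hA hprod
    have hE : 1 ≤ E := by
      rcases Nat.eq_zero_or_pos E with h0 | h0
      · subst h0
        rw [pow_zero] at hnL
        omega
      · exact h0
    have hL : L₀ + 2 ≤ L := by
      by_contra hcon
      push Not at hcon
      have := Nat.pow_le_pow_left hcon.le E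
      omega
    obtain ⟨e1, e2, e3, e4⟩ := hL₀ L (by omega) K hK
    have hNA : Pool.Agent.Y816.PD.NA K A = ∏ i ∈ range K, ((A i).card : ℝ) := rfl
    have hNA0 := Pool.Agent.Y816.PD.NA_nonneg K A
    have hprod' : (b : ℝ) ^ K ≤ Real.exp (c * K) * Pool.Agent.Y816.PD.NA K A := by
      refine hprod.trans ?_
      apply mul_le_mul_of_nonneg_right _ hNA0
      apply Real.exp_le_exp.2
      exact mul_le_mul_of_nonneg_right (min_le_left _ _) (Nat.cast_nonneg _)
    have hbK : b ≤ b ^ K := Nat.le_self_pow (by omega) b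
    -- size
    have hsize : ∀ s t : ℤ, Fit n s t → ∀ m : ℕ, m < B + 2 * L → (GH (Hs n s t) m).natAbs ≤ L ^ (8 * E) := by
      intro s t hf m hm
      have h3 : (GH (Hs n s t) m).natAbs ≤ (2 * n + 2) ^ 4 := by
        apply GH_natAbs
        · intro x hx
          unfold Hs at hx
          simp only [mem_insert, mem_singleton] at hx
          have hs := hf.1
          have ht := hf.2.1
          rcases hs with rfl | rfl <;> rcases ht with rfl | rfl <;> rcases hx with rfl | rfl | rfl | rfl <;> omega
        · omega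
      calc (GH (Hs n s t) m).natAbs ≤ (2 * n + 2) ^ 4 := h3
        _ ≤ (n ^ 2) ^ 4 := by
            apply Nat.pow_le_pow_left
            nlinarith
        _ = n ^ 8 := by ring
        _ ≤ (L ^ E) ^ 8 := Nat.pow_le_pow_left hnL 8
        _ = L ^ (8 * E) := by rw [← pow_mul]; congr 1; ring
    constructor
    · intro s t hf hd
      have hG := PF_GH _ (card_Hs n s t)
      obtain ⟨h5, -⟩ := e4 (GH (Hs n s t)) hG (nf he hf) B (hsize s t hf) A hA hprod'
      have h6 := h5 (P n s t B L r (b ^ K)) ((finite_toSet (Ioc B (B + L))).subset fun m hm => by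
          rw [mem_coe, mem_Ioc]; exact hm.1) (by
        intro m hm1 hm2 hm3
        obtain ⟨hm4, hm5⟩ := hm3
        have hpos : ∀ i, 1 < num n s t m i := by
          intro i
          have hs := hf.1
          have ht := hf.2.1
          have f0 : (1 : ℤ) < (m : ℤ) := by omega
          have f1 : (1 : ℤ) < (m : ℤ) + s := by rcases hs with rfl | rfl <;> omega
          have f2 : (1 : ℤ) < (n : ℤ) - m := by omega
          have f3 : (1 : ℤ) < (n : ℤ) - m + t := by rcases ht with rfl | rfl <;> omega
          fin_cases i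
          · exact f0
          · exact f1
          · exact f2
          · exact f3
        have hne : GH (Hs n s t) m ≠ 0 := by
          unfold GH
          rw [prod_ne_zero_iff]
          intro x hx h0
          have hp : (Nat.Prime 2) := Nat.prime_two
          unfold Hs at hx
          simp only [mem_insert, mem_singleton] at hx
          have f0 := hpos 0
          have f1 := hpos 1
          have f2 := hpos 2
          have f3 := hpos 3
          unfold num at f0 f1 f2 f3
          simp at f0 f1 f2 f3
          rcases hx with rfl | rfl | rfl | rfl <;> omega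
        refine ⟨⟨hm1, hm2⟩, fun i => ⟨hpos i, ?_, fun q hq hd => hm4 q hq (hd.trans (num_dvd n s t m i).1)⟩⟩
        refine le_trans ?_ hm5
        exact (Nat.primeFactorsList_sublist_of_dvd (Int.natAbs_dvd_natAbs.2 (num_dvd n s t m i).1)
          (Int.natAbs_ne_zero.2 hne)).length_le)
        (by
          obtain ⟨d, hd, hd2⟩ := hd
          exact ⟨d, hd, (hcop s t d).1 hd2⟩)
      refine le_trans ?_ h6
      rw [V_eq]
      apply mul_le_mul_of_nonneg_left _ (by positivity)
      exact WG_anti hG (nf he hf) (by omega)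
    · -- the upper bound for one pair of signs
      have key : ∀ s t : ℤ, (s = 2 ∨ s = -2) → (t = 2 ∨ t = -2) → (count b K A (TT n s t B L) : ℝ) ≤
          (C * ((4 * (E : ℝ)) ^ 4 / c2) + 1) * (∏ i ∈ range K, ((A i).card : ℝ)) * V n s t := by
        intro s t hs ht
        have hV := V_nonneg n s t
        have hbig : ∀ m ∈ TT n s t B L, ∀ i, 4 ≤ num n s t m i := by
          intro m hm i
          have f0 : (4 : ℤ) ≤ (m : ℤ) := by have := hm.1; omega
          have f1 : (4 : ℤ) ≤ (m : ℤ) + s := by have := hm.1; rcases hs with rfl | rfl <;> omega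
          have f2 : (4 : ℤ) ≤ (n : ℤ) - m := by have := hm.1; omega
          have f3 : (4 : ℤ) ≤ (n : ℤ) - m + t := by have := hm.1; rcases ht with rfl | rfl <;> omega
          fin_cases i
          · exact f0
          · exact f1
          · exact f2
          · exact f3
        by_cases hf : Fit n s t
        · have hG := PF_GH _ (card_Hs n s t)
          obtain ⟨-, h5⟩ := e4 (GH (Hs n s t)) hG (nf he hf) B (hsize s t hf) A hA hprod'
          obtain ⟨z, hz⟩ : ∃ z, z = Nat.sqrt (b ^ K) := ⟨_, rfl⟩
          have h6 := h5 (TT n s t B L) ((range (z + 3) ∪ Icc (n - (z + 2)) n : Finset ℕ) : Set ℕ) (finite_toSet _)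
            (by
              rw [Set.ncard_coe_finset]
              refine (card_union_le _ _).trans ?_
              rw [card_range, Nat.card_Icc]
              omega) (by
              intro m hm
              refine ⟨hm.1, ?_⟩
              by_contra hcon
              push Not at hcon
              obtain ⟨hmS, q, hq, hqd, hqr⟩ := hcon
              obtain ⟨i, hi⟩ := dvd_num n s t m hq hqd
              have h7 : q = (num n s t m i).natAbs :=
                (Nat.prime_dvd_prime_iff_eq hq (hm.2 i)).1 (Int.natCast_dvd.1 hi)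
              have h8 : q ≤ z := by
                rw [hz, Nat.le_sqrt]
                have : q ^ 2 ≤ q ^ r := Nat.pow_le_pow_right hq.pos h2r
                rw [← sq]
                omega
              apply hmS
              rw [mem_coe, mem_union, mem_range, mem_Icc]
              have hmi := hbig m hm i
              have h9 : num n s t m i ≤ z := by omega
              have hm1 := hm.1
              clear hmi
              fin_cases i
              · left
                have h10 : (m : ℤ) ≤ z := h9
                omega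
              · left
                have h10 : (m : ℤ) + s ≤ z := h9
                rcases hs with rfl | rfl <;> omega
              · right
                have h10 : (n : ℤ) - m ≤ z := h9
                omega
              · right
                have h10 : (n : ℤ) - m + t ≤ z := h9
                rcases ht with rfl | rfl <;> omega)
          refine le_trans h6 ?_
          have h7 := hcomp (b ^ K) n (by omega) (by omega) _ hG (nf he hf)
          rw [← V_eq] at h7
          have hW0 := Pool.Agent.Y816.PD.WG_nonneg (GH (Hs n s t)) (b ^ K)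
          have hlogn : 0 < Real.log n := Real.log_pos (by exact_mod_cast (by omega : 1 < n))
          have hE0 : (0 : ℝ) < E := by exact_mod_cast hE
          have h8 : 1 / (4 * (E : ℝ)) ≤ Real.log ((b ^ K : ℕ) : ℝ) / Real.log n := by
            rw [div_le_div_iff₀ (by positivity) hlogn, one_mul]
            have h9 : Real.log n ≤ E * Real.log L := by
              rw [← Real.log_pow]
              apply Real.log_le_log (by exact_mod_cast (by omega : 0 < n))
              exact_mod_cast hnL
            have h10 : Real.log L ≤ 4 * Real.log ((b ^ K : ℕ) : ℝ) := by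
              have h11 : (L : ℝ) ≤ (((b ^ K : ℕ) : ℝ)) ^ 4 := by
                have : L ≤ (b ^ K) ^ 4 := by
                  rw [← pow_mul, mul_comm K 4]
                  exact e3.le
                exact_mod_cast this
              have h12 := Real.log_le_log (by exact_mod_cast (by omega : 0 < L)) h11
              rw [Real.log_pow] at h12
              exact_mod_cast h12
            calc Real.log n ≤ E * Real.log L := h9
              _ ≤ E * (4 * Real.log ((b ^ K : ℕ) : ℝ)) := mul_le_mul_of_nonneg_left h10 hE0.le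
              _ = _ := by ring
          have h9 : (1 / (4 * (E : ℝ))) ^ 4 ≤ (Real.log ((b ^ K : ℕ) : ℝ) / Real.log n) ^ 4 :=
            pow_le_pow_left₀ (by positivity) h8 4
          have h10 : Pool.Agent.Y816.PD.WG (GH (Hs n s t)) (b ^ K) ≤ (4 * (E : ℝ)) ^ 4 / c2 * V n s t := by
            have h11 : c2 * (1 / (4 * (E : ℝ))) ^ 4 * Pool.Agent.Y816.PD.WG (GH (Hs n s t)) (b ^ K) ≤ V n s t := by
              refine le_trans ?_ h7
              apply mul_le_mul_of_nonneg_right _ hW0
              exact mul_le_mul_of_nonneg_left h9 hc2.le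
            have e5 : Pool.Agent.Y816.PD.WG (GH (Hs n s t)) (b ^ K) = (4 * (E : ℝ)) ^ 4 / c2 *
                (c2 * (1 / (4 * (E : ℝ))) ^ 4 * Pool.Agent.Y816.PD.WG (GH (Hs n s t)) (b ^ K)) := by
              field_simp
            rw [e5]
            exact mul_le_mul_of_nonneg_left h11 (by positivity)
          rw [← hNA]
          calc C * Pool.Agent.Y816.PD.NA K A * Pool.Agent.Y816.PD.WG (GH (Hs n s t)) (b ^ K) ≤
              C * Pool.Agent.Y816.PD.NA K A * ((4 * (E : ℝ)) ^ 4 / c2 * V n s t) :=
              mul_le_mul_of_nonneg_left h10 (by positivity)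
            _ = (C * ((4 * (E : ℝ)) ^ 4 / c2)) * Pool.Agent.Y816.PD.NA K A * V n s t := by ring
            _ ≤ _ := by
              apply mul_le_mul_of_nonneg_right _ hV
              apply mul_le_mul_of_nonneg_right _ hNA0
              linarith
        · have h5 : TT n s t B L = ∅ := by
            rw [Set.eq_empty_iff_forall_notMem]
            intro m hm
            apply hf
            refine ⟨hs, ht, ?_⟩
            rw [← nu_Hs]
            apply nu_lt_of (Hs n s t) Nat.prime_three (m := m)
            intro x hx hd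
            obtain ⟨i, hi⟩ := dvd_num n s t m Nat.prime_three ((dvd_GH _ Nat.prime_three m).2 ⟨x, hx, hd⟩)
            have h7 : 3 = (num n s t m i).natAbs :=
              (Nat.prime_dvd_prime_iff_eq Nat.prime_three (hm.2 i)).1 (Int.natCast_dvd.1 hi)
            have h8 := hbig m hm i
            omega
          have h6 : count b K A (TT n s t B L) = 0 := by
            unfold count
            rw [h5]
            simp
          rw [h6, Nat.cast_zero]
          have h7 : 0 ≤ ∏ i ∈ range K, ((A i).card : ℝ) := prod_nonneg fun _ _ => Nat.cast_nonneg _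
          exact mul_nonneg (mul_nonneg (by positivity) h7) hV
      -- the union
      have hfin : ∀ s t : ℤ, {m : ℕ | m ∈ TT n s t B L ∧ ∀ i < K, m / b ^ i % b ∈ A i}.Finite := fun s t =>
        (finite_toSet (Ioc B (B + L))).subset fun m hm => by
          rw [mem_coe, mem_Ioc]
          exact hm.1.1
      have hun : count b K A (T n B L) ≤ count b K A (TT n 2 2 B L) + count b K A (TT n 2 (-2) B L) +
          count b K A (TT n (-2) 2 B L) + count b K A (TT n (-2) (-2) B L) := by
        unfold count
        refine le_trans (Set.ncard_le_ncard (t := (({m : ℕ | m ∈ TT n 2 2 B L ∧ ∀ i < K, m / b ^ i % b ∈ A i} ∪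
          {m : ℕ | m ∈ TT n 2 (-2) B L ∧ ∀ i < K, m / b ^ i % b ∈ A i}) ∪
          {m : ℕ | m ∈ TT n (-2) 2 B L ∧ ∀ i < K, m / b ^ i % b ∈ A i}) ∪
          {m : ℕ | m ∈ TT n (-2) (-2) B L ∧ ∀ i < K, m / b ^ i % b ∈ A i}) ?_ ?_) ?_
        · rintro m ⟨⟨hm, ⟨hp, hp2⟩, hq, hq2⟩, hd⟩
          have g0 : (num n 2 2 m 0).natAbs = m := by show ((m : ℤ)).natAbs = m; omega
          have hall : ∀ s t : ℤ, ((m : ℤ) + s).natAbs.Prime → ((n : ℤ) - m + t).natAbs.Prime →
              m ∈ TT n s t B L := by
            intro s t h1 h2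
            refine ⟨hm, fun i => ?_⟩
            fin_cases i
            · show ((m : ℤ)).natAbs.Prime
              rw [Int.natAbs_natCast]
              exact hp
            · exact h1
            · show ((n : ℤ) - m).natAbs.Prime
              have e : ((n : ℤ) - m).natAbs = n - m := by omega
              rw [e]
              exact hq
            · exact h2
          have a1 : ((m : ℤ) + 2).natAbs = m + 2 := by omega
          have a2 : ((m : ℤ) + -2).natAbs = m - 2 := by omega
          have a3 : ((n : ℤ) - m + 2).natAbs = n - m + 2 := by omega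
          have a4 : ((n : ℤ) - m + -2).natAbs = n - m - 2 := by omega
          rcases hp2 with hp2 | hp2 <;> rcases hq2 with hq2 | hq2
          · exact Or.inl (Or.inl (Or.inl ⟨hall 2 2 (by rw [a1]; exact hp2) (by rw [a3]; exact hq2), hd⟩))
          · exact Or.inl (Or.inl (Or.inr ⟨hall 2 (-2) (by rw [a1]; exact hp2) (by rw [a4]; exact hq2), hd⟩))
          · exact Or.inl (Or.inr ⟨hall (-2) 2 (by rw [a2]; exact hp2) (by rw [a3]; exact hq2), hd⟩)
          · exact Or.inr ⟨hall (-2) (-2) (by rw [a2]; exact hp2) (by rw [a4]; exact hq2), hd⟩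
        · exact (((hfin _ _).union (hfin _ _)).union (hfin _ _)).union (hfin _ _)
        · refine (Set.ncard_union_le _ _).trans ?_
          apply Nat.add_le_add_right
          refine (Set.ncard_union_le _ _).trans ?_
          apply Nat.add_le_add_right
          exact Set.ncard_union_le _ _
      have k1 := key 2 2 (Or.inl rfl) (Or.inl rfl)
      have k2 := key 2 (-2) (Or.inl rfl) (Or.inr rfl)
      have k3 := key (-2) 2 (Or.inr rfl) (Or.inl rfl)
      have k4 := key (-2) (-2) (Or.inr rfl) (Or.inr rfl)
      have hun' : (count b K A (T n B L) : ℝ) ≤ count b K A (TT n 2 2 B L) + count b K A (TT n 2 (-2) B L) +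
          count b K A (TT n (-2) 2 B L) + count b K A (TT n (-2) (-2) B L) := by exact_mod_cast hun
      refine hun'.trans ?_
      rw [mul_add, mul_add, mul_add]
      linarith

end Pool.Agent.Results.MP_c6d112_nt.RestrictedDigits
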