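import Pool.Agent.K1H73.LS.Tw

/-!
# The law of the spacings of the almost twin prime representations of every large even number

`n = p + (n - p)` where `p`, `p + s`, `n - p`, `n - p + t` (`s, t = ± 2`) have no prime factor `≤ n ^ (1 / r)`: for
every large even `n`, all `p` of an arbitrary arithmetic progression and of an arbitrary interval with at least
`n ^ θ` terms, the distances between the good `p` (to the `k`-th preceding one) have asymptotically the distribution
which belongs to a Poisson process.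

The spacing law for finite sets of linear forms is the one of `Pool.Agent.R490.LZ` (`gapL`) of the starting files,
for forms which are not translates of each other by small numbers. The forms `x`, `x + s` are; new here is the
reduction to one class modulo a divisor of six, in which all the good `p` lie, uniformly in the modulus, and the
application to the sums.
-/

set_option autoImplicit false

namespace Pool.Agent.Results.MP_c6d112_nt.SpacingLaw

open Finset Filter
open Pool.Agent.K1H73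

/-- the number of the residue classes modulo `l` of `0`, `-s`, `n`, `n + t` -/
def rho (n s t : ℤ) (l : ℕ) : ℕ := (({0, -s, n, n + t} : Finset ℤ).image (fun h : ℤ => h % (l : ℤ))).card

/-- the signs fit to `n`: both are `2` or `-2`, and there is no obstruction modulo `3` for the four
numbers `p`, `p + s`, `n - p`, `n - p + t` -/
def Fit (n s t : ℤ) : Prop := (s = 2 ∨ s = -2) ∧ (t = 2 ∨ t = -2) ∧ rho n s t 3 < 3

/-- the four numbers `p`, `p + s`, `n - p`, `n - p + t` -/
def num (n s t : ℤ) (p : ℕ) (i : Fin 4) : ℤ := ![(p : ℤ), p + s, n - p, n - p + t] i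

/-- the sieve product over the primes `l ≤ z` which do not divide `q` -/
noncomputable def V (n s t : ℤ) (q z : ℕ) : ℝ :=
  ∏ l ∈ (Finset.range (z + 1)).filter Nat.Prime, (1 - ((if l ∣ q then 0 else rho n s t l : ℕ) : ℝ) / l)

/-- none of the four numbers has a prime factor `≤ z`, `p = a + q m` -/
def Good (n s t : ℤ) (q a z m : ℕ) : Prop :=
  ∀ l : ℕ, l.Prime → l ≤ z → ∀ i, ¬ (l : ℤ) ∣ num n s t (a + q * m) i

open Classical in
/-- The number of the good `m` in `(u, u + Y]` for which fewer than `k` of the `T` integers before `m` are good, that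
is, for which the distance from `m` to the `k`-th preceding good one is larger than `T`. -/
noncomputable def D (n s t : ℤ) (q a z k T u Y : ℕ) : ℕ :=
  ((Ioc u (u + Y)).filter (fun m => Good n s t q a z m ∧
    ((Ico (m - T) m).filter (fun m' => Good n s t q a z m')).card < k)).card

theorem fit_exists (n : ℤ) : ∃ s t : ℤ, Fit n s t := by
  have h3 : n % 3 = 0 ∨ n % 3 = 1 ∨ n % 3 = 2 := by omega
  have key : ∀ s t : ℤ, ∀ a b : ℤ, (-s) % 3 = a → (n + t) % 3 = b → rho n s t 3 =
      (({0, a, n % 3, b} : Finset ℤ)).card := by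
    intro s t a b h1 h2
    unfold rho
    rw [image_insert, image_insert, image_insert, image_singleton]
    push_cast
    rw [h1, h2]
  rcases h3 with h | h | h
  · refine ⟨2, -2, Or.inl rfl, Or.inr rfl, ?_⟩
    rw [key 2 (-2) 1 1 (by norm_num) (by omega), h]
    decide
  · refine ⟨2, 2, Or.inl rfl, Or.inl rfl, ?_⟩
    rw [key 2 2 1 0 (by norm_num) (by omega), h]
    decide
  · refine ⟨-2, -2, Or.inr rfl, Or.inr rfl, ?_⟩
    rw [key (-2) (-2) 2 0 (by norm_num) (by omega), h]
    decide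

theorem good_iff (n s t : ℤ) (q a z m : ℕ) :
    Good n s t q a z m ↔ Pool.Agent.R490.LZ.Ro (LS.fm q a (LS.Hs n s t)) z m := by
  rw [LS.fm_ro]
  unfold Good
  constructor
  · intro h l hl hlz
    exact (LS.num_dvd n s t (a + q * m) l).1 (h l hl hlz)
  · intro h l hl hlz
    exact (LS.num_dvd n s t (a + q * m) l).2 (h l hl hlz)

theorem D_eq (n s t : ℤ) (q a z k T u Y : ℕ) :
    D n s t q a z k T u Y = Pool.Agent.R490.LZ.Dk (LS.fm q a (LS.Hs n s t)) z k T u Y := by
  have e : (fun m => Good n s t q a z m) = fun m => Pool.Agent.R490.LZ.Ro (LS.fm q a (LS.Hs n s t)) z m := by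
    funext m
    exact propext (good_iff n s t q a z m)
  have e' : Good n s t q a z = Pool.Agent.R490.LZ.Ro (LS.fm q a (LS.Hs n s t)) z := e
  unfold D Pool.Agent.R490.LZ.Dk
  rw [e']

theorem hco_of {n s t : ℤ} {q a : ℕ} (h : ∀ i, IsCoprime (num n s t a i) (q : ℤ)) :
    ∀ p : ℕ, p.Prime → p ∣ q → ∀ h ∈ LS.Hs n s t, ¬ (p : ℤ) ∣ (a : ℤ) - h := by
  intro p hp hpq
  apply (LS.num_dvd n s t a p).1
  intro i hd
  have h1 : (p : ℤ) ∣ (q : ℤ) := by exact_mod_cast hpq
  have h2 := (h i).isUnit_of_dvd' hd h1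
  rw [Int.isUnit_iff_natAbs_eq, Int.natAbs_natCast] at h2
  exact hp.one_lt.ne' h2

theorem V_eq {n s t : ℤ} {q a : ℕ} (h : ∀ i, IsCoprime (num n s t a i) (q : ℤ)) (z : ℕ) :
    Pool.Agent.R490.LZ.De (LS.fm q a (LS.Hs n s t)) z = V n s t q z := by
  rw [LS.fm_De (hco_of h)]
  rfl

theorem V_pos {n s t : ℤ} (he : Even n) (hf : Fit n s t) (q z : ℕ) : 0 < V n s t q z := by
  unfold V
  apply prod_pos
  intro l hl
  have hl' := (mem_filter.1 hl).2
  have h1 : rho n s t l < l := LS.nu_lt he hf l hl'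
  have h0 : (0 : ℝ) < l := by exact_mod_cast hl'.pos
  rw [sub_pos, div_lt_one h0]
  split_ifs
  · exact_mod_cast hl'.pos
  · exact_mod_cast h1

/-- few prime factors -/
theorem few {n z r : ℕ} (hr : 1 ≤ r) (hn : 2 ≤ n) (hz : z = ⌊(n : ℝ) ^ (1 / (r : ℝ))⌋₊) (hz2 : 2 ≤ z) {x : ℕ}
    (hx0 : x ≠ 0) (hx : x ≤ n + 2) (h : ∀ l : ℕ, l.Prime → l ≤ z → ¬ l ∣ x) : x.primeFactorsList.length ≤ r := by
  by_contra hcon
  rw [not_le] at hcon
  have h1 : ∀ l ∈ x.primeFactorsList, z + 1 ≤ l := by
    intro l hl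
    by_contra h2
    exact h l (Nat.prime_of_mem_primeFactorsList hl) (by omega) (Nat.dvd_of_mem_primeFactorsList hl)
  have h2 : (z + 1) ^ x.primeFactorsList.length ≤ x := by
    have h3 : (z + 1) ^ x.primeFactorsList.length ≤ x.primeFactorsList.prod :=
      List.pow_card_le_prod _ _ h1
    rwa [Nat.prod_primeFactorsList hx0] at h3
  have h4 : (z + 1) ^ (r + 1) ≤ (z + 1) ^ x.primeFactorsList.length := Nat.pow_le_pow_right (by omega) hcon
  have h5 : (n : ℝ) < ((z + 1 : ℕ) : ℝ) ^ r := by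
    have h6 : (n : ℝ) ^ (1 / (r : ℝ)) < ((z + 1 : ℕ) : ℝ) := by
      rw [hz]
      push_cast
      exact Nat.lt_floor_add_one _
    have h7 : ((n : ℝ) ^ (1 / (r : ℝ))) ^ r < ((z + 1 : ℕ) : ℝ) ^ r :=
      pow_lt_pow_left₀ h6 (by positivity) (by omega)
    rwa [← Real.rpow_natCast, ← Real.rpow_mul (Nat.cast_nonneg n), one_div,
      inv_mul_cancel₀ (by positivity), Real.rpow_one] at h7
  have h6 : n < (z + 1) ^ r := by exact_mod_cast h5
  have h7 : (z + 1) ^ (r + 1) = (z + 1) ^ r * (z + 1) := pow_succ _ _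
  nlinarith

/-- **The law of the spacings.** Let `θ, ε > 0`, `k0`, `x0` be given. (0) Every integer has fitting signs.
There is `r0` such that for all `r ≥ r0` and all large even `n`, `z = n ^ (1 / r)` (integer part), all fitting signs
`s`, `t` and all `q`, `a` such that the four numbers for `p = a` are prime to `q`: (1) for `a + q m ≤ n`, if `m` is
good, the four numbers for `p = a + q m` have at most `r` prime factors, and if they are primes larger than `z`
up to the sign, `m` is good; (2) for all intervals `(u, u + Y]` with `Y ≥ n ^ θ`, `a + q (u + Y) ≤ n`, and all `k`, `T`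
with `k ≤ k0` or `T V ≤ x0`: the number of the good `m` in `(u, u + Y]` whose distance to the `k`-th preceding good
one is larger than `T` is `Y V ∑ (j < k) e ^ (- T V) (T V) ^ j / j!`, up to `ε Y V`. -/
theorem result (θ x0 ε : ℝ) (hθ : 0 < θ) (hε : 0 < ε) (k0 : ℕ) :
    (∀ n : ℤ, ∃ s t : ℤ, Fit n s t) ∧
    ∃ r0 : ℕ, 1 ≤ r0 ∧ ∀ r : ℕ, r0 ≤ r → ∀ᶠ n : ℕ in atTop, Even n → ∀ z : ℕ, z = ⌊(n : ℝ) ^ (1 / (r : ℝ))⌋₊ →
      ∀ s t : ℤ, Fit n s t → ∀ q a : ℕ, 1 ≤ q → (∀ i, IsCoprime (num n s t a i) (q : ℤ)) →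
        0 < V n s t q z ∧
        (∀ m : ℕ, a + q * m ≤ n →
          (Good n s t q a z m → ∀ i, (num n s t (a + q * m) i).natAbs.primeFactorsList.length ≤ r) ∧
          ((∀ i, (num n s t (a + q * m) i).natAbs.Prime ∧ z < (num n s t (a + q * m) i).natAbs) →
            Good n s t q a z m)) ∧
        ∀ u Y : ℕ, (n : ℝ) ^ θ ≤ Y → a + q * (u + Y) ≤ n →
          ∀ k T : ℕ, (k ≤ k0 ∨ T * V n s t q z ≤ x0) →
            |(D n s t q a z k T u Y : ℝ) - Y * V n s t q z *
                ∑ j ∈ range k, Real.exp (-(T * V n s t q z)) * (T * V n s t q z) ^ j / j.factorial| ≤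
              ε * (Y * V n s t q z) := by
  refine ⟨fit_exists, ?_⟩
  obtain ⟨r0, h0⟩ := LS.gapC 4 2 6 (by norm_num) (θ / 2) θ (by linarith) hθ k0 x0 ε hε
  refine ⟨max r0 1, le_max_right _ _, ?_⟩
  intro r hr
  have hr1 : 1 ≤ r := (le_max_right _ _).trans hr
  have hb1 : ∀ᶠ n : ℕ in atTop, (12 : ℝ) < (n : ℝ) ^ (θ / 2) :=
    ((tendsto_rpow_atTop (by linarith)).comp tendsto_natCast_atTop_atTop).eventually_gt_atTop _
  have hb2 : ∀ᶠ n : ℕ in atTop, (2 : ℝ) ≤ (n : ℝ) ^ (1 / (r : ℝ)) :=
    ((tendsto_rpow_atTop (by positivity)).comp tendsto_natCast_atTop_atTop).eventually_ge_atTop _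
  filter_upwards [h0 r ((le_max_left _ _).trans hr), hb1, hb2, eventually_ge_atTop 10] with n hX hX1 hX2 hn
  intro he z hz s t hf q a hq hco
  have heZ : Even (n : ℤ) := by exact_mod_cast he
  have hz2 : 2 ≤ z := by
    rw [hz]
    exact Nat.le_floor (by exact_mod_cast hX2)
  refine ⟨V_pos heZ hf q z, ?_, ?_⟩
  · intro m hm
    constructor
    · intro hg i
      have hp : (((a + q * m : ℕ) : ℤ)) ≤ n := by exact_mod_cast hm
      have hp0 : (0 : ℤ) ≤ ((a + q * m : ℕ) : ℤ) := Nat.cast_nonneg _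
      have hx : (num n s t (a + q * m) i).natAbs ≤ n + 2 := by
        obtain ⟨hs, ht, _⟩ := hf
        obtain ⟨P, hP⟩ : ∃ P : ℤ, P = ((a + q * m : ℕ) : ℤ) := ⟨_, rfl⟩
        have e : num n s t (a + q * m) i = ![P, P + s, (n : ℤ) - P, (n : ℤ) - P + t] i := by
          rw [hP]
          rfl
        rw [e]
        rw [← hP] at hp hp0
        fin_cases i
        · show P.natAbs ≤ n + 2
          omega
        · show (P + s).natAbs ≤ n + 2
          rcases hs with hs | hs <;> omega
        · show ((n : ℤ) - P).natAbs ≤ n + 2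
          omega
        · show ((n : ℤ) - P + t).natAbs ≤ n + 2
          rcases ht with ht | ht <;> omega
      by_cases hx0 : (num n s t (a + q * m) i).natAbs = 0
      · rw [hx0]
        simp
      · apply few hr1 (by omega) hz hz2 hx0 hx
        intro l hl hlz hd
        exact hg l hl hlz i (Int.natCast_dvd.2 hd)
    · intro h l hl hlz i hd
      obtain ⟨h1, h2⟩ := h i
      have h3 := (Nat.prime_dvd_prime_iff_eq hl h1).1 (Int.natCast_dvd.1 hd)
      omega
  · intro u Y hY hu k T hT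
    have hft : LS.Ft n s t := hf
    obtain ⟨c, hc⟩ := LS.twin_one heZ hft q a
    obtain ⟨_, _, hw6, hw1, h6, _⟩ := LS.ww_spec q
    have hn1 : (1 : ℝ) ≤ n := by
      have : (10 : ℝ) ≤ n := by exact_mod_cast hn
      linarith
    have hhalf : (0 : ℝ) < (n : ℝ) ^ (θ / 2) := by linarith
    have hY1 : 1 ≤ Y := by
      have h1 : (1 : ℝ) ≤ (n : ℝ) ^ θ := Real.one_le_rpow hn1 hθ.le
      exact_mod_cast h1.trans hY
    have hqY : q * Y ≤ n := by
      rw [mul_add] at hu
      omega
    have hqn : q ≤ n := (Nat.le_mul_of_pos_right q hY1).trans hqY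
    have hgood := LS.twin_good (by omega) heZ hft hq hqn (by omega) (hco_of hco) hc
    have hnoT : Pool.Agent.R490.LZ.NoT (LS.sb (LS.ww q) c (LS.fm q a (LS.Hs n s t))) ((n : ℝ) ^ (θ / 2)) := by
      apply LS.sb_noT
      intro h hh h' hh' T' hT1 hT2
      have h7 : (6 : ℤ) ∣ (q : ℤ) * LS.ww q := by exact_mod_cast h6
      apply LS.dif hft ((q : ℤ) * LS.ww q * T') (Dvd.dvd.mul_right h7 _) ?_ ?_ h hh h' hh'
      · have : 0 < q * LS.ww q * T' := Nat.mul_pos (Nat.mul_pos hq hw1) hT1
        exact_mod_cast this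
      · have h8 : (q : ℝ) * (n : ℝ) ^ θ ≤ n := by
          have h9 : (q : ℝ) * Y ≤ n := by exact_mod_cast hqY
          exact (mul_le_mul_of_nonneg_left hY (Nat.cast_nonneg q)).trans h9
        have h9 : (n : ℝ) ^ θ = (n : ℝ) ^ (θ / 2) * (n : ℝ) ^ (θ / 2) := by
          rw [← Real.rpow_add (by linarith)]
          congr 1
          ring
        rw [h9] at h8
        have h10 : (q : ℝ) * (n : ℝ) ^ (θ / 2) * 12 ≤ n := by
          have h11 : (q : ℝ) * (n : ℝ) ^ (θ / 2) * 12 ≤ (q : ℝ) * (n : ℝ) ^ (θ / 2) * (n : ℝ) ^ (θ / 2) :=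
            mul_le_mul_of_nonneg_left hX1.le (by positivity)
          linarith
        have h12 : ((q * LS.ww q * T' : ℕ) : ℝ) ≤ (q : ℝ) * (n : ℝ) ^ (θ / 2) * 6 := by
          push_cast
          have h13 : ((LS.ww q : ℕ) : ℝ) ≤ 6 := by exact_mod_cast hw6
          calc (q : ℝ) * (LS.ww q : ℝ) * (T' : ℝ) ≤ (q : ℝ) * 6 * (n : ℝ) ^ (θ / 2) := by
                apply mul_le_mul _ hT2 (Nat.cast_nonneg _) (by positivity)
                exact mul_le_mul_of_nonneg_left h13 (Nat.cast_nonneg q)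
            _ = (q : ℝ) * (n : ℝ) ^ (θ / 2) * 6 := by ring
        have h14 : ((q * LS.ww q * T' : ℕ) : ℝ) * 2 ≤ n := by linarith
        have h15 : q * LS.ww q * T' * 2 ≤ n := by exact_mod_cast h14
        have h16 : ((q * LS.ww q * T' : ℕ) : ℤ) < (n : ℤ) - 4 := by omega
        push_cast at h16
        exact h16
    have hcard : (LS.fm q a (LS.Hs n s t)).card = 4 := by
      rw [LS.fm_card]
      exact LS.Hs_card (by exact_mod_cast (by omega : 5 ≤ n)) hft
    have h := hX (LS.fm q a (LS.Hs n s t)) (LS.ww q) c hcard hw6 hc hgood hnoT z hz u Y hY k T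
      (by rw [V_eq hco]; exact hT)
    rw [V_eq hco, ← D_eq] at h
    exact h

end Pool.Agent.Results.MP_c6d112_nt.SpacingLaw
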